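import Mathlib

/-! Powers of an ideal generated by a regular sequence of length two, acting on a module. -/

set_option autoImplicit false

namespace Pool.Agent.N397.NG

variable {R : Type*} [CommRing R] {M : Type*} [AddCommGroup M] [Module R M]

/-- `(a, b)` is a regular sequence on `M`: `a` is a nonzerodivisor on `M` and `b` is a nonzerodivisor on
`M / a M`. -/
structure RegularPair (a b : R) (M : Type*) [AddCommGroup M] [Module R M] : Prop where
  fst : ∀ x : M, a • x = 0 → x = 0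
  snd : ∀ x y : M, b • x = a • y → ∃ z, x = a • z

theorem RegularPair.pow {a b : R} (h : RegularPair a b M) (n : ℕ) :
    ∀ x y : M, b ^ n • x = a • y → ∃ z, x = a • z ∧ y = b ^ n • z := by
  induction n with
  | zero => intro x y hxy; exact ⟨y, by simpa using hxy, by simp⟩
  | succ n ih =>
    intro x y hxy
    obtain ⟨z', h1, h2⟩ := ih (b • x) y (by rw [← hxy, pow_succ, mul_smul])
    obtain ⟨z, rfl⟩ := h.snd x z' h1
    refine ⟨z, rfl, ?_⟩
    have : a • (y - b ^ (n + 1) • z) = 0 := by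
      rw [smul_sub, ← hxy, smul_comm, sub_self]
    exact sub_eq_zero.1 (h.fst _ this)

/-- The submodule `(a, b)^n M`, as `a (a, b)^(n-1) M + b^n M`. -/
def W (a b : R) (M : Type*) [AddCommGroup M] [Module R M] : ℕ → Submodule R M
  | 0 => ⊤
  | n + 1 => (W a b M n).map (LinearMap.lsmul R M a) ⊔ (⊤ : Submodule R M).map (LinearMap.lsmul R M (b ^ (n + 1)))

theorem mem_W_succ {a b : R} {n : ℕ} {x : M} :
    x ∈ W a b M (n + 1) ↔ ∃ w ∈ W a b M n, ∃ y : M, x = a • w + b ^ (n + 1) • y := by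
  rw [W, Submodule.mem_sup]
  constructor
  · rintro ⟨_, ⟨w, hw, rfl⟩, _, ⟨y, -, rfl⟩, rfl⟩
    exact ⟨w, hw, y, rfl⟩
  · rintro ⟨w, hw, y, rfl⟩
    exact ⟨a • w, ⟨w, hw, rfl⟩, b ^ (n + 1) • y, ⟨y, trivial, rfl⟩, rfl⟩

theorem b_mem_W (a b : R) (n : ℕ) (x : M) : b ^ n • x ∈ W a b M n := by
  cases n with
  | zero => trivial
  | succ n => exact mem_W_succ.2 ⟨0, Submodule.zero_mem _, x, by simp⟩

/-- The element `a^(n-1) u_0 + a^(n-2) b u_1 + … + b^(n-1) u_(n-1)`. -/
def F (a b : R) (u : ℕ → R) : ℕ → R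
  | 0 => 0
  | n + 1 => a * F a b u n + b ^ n * u n

theorem mem_W_one {a b : R} {x : M} : x ∈ W a b M 1 ↔ ∃ y z : M, x = a • y + b • z := by
  rw [mem_W_succ]
  constructor
  · rintro ⟨w, -, y, rfl⟩; exact ⟨w, y, by simp⟩
  · rintro ⟨y, z, rfl⟩; exact ⟨y, trivial, z, by simp⟩

/-- Quasi-regularity: `F c ∈ (a, b)^n M` iff all `u_i c` are in `(a, b) M`. -/
theorem F_mem {a b : R} (h : RegularPair a b M) (u : ℕ → R) (n : ℕ) (c : M) :
    F a b u n • c ∈ W a b M n ↔ ∀ i < n, u i • c ∈ W a b M 1 := by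
  induction n with
  | zero => simp [W]
  | succ n ih =>
    constructor
    · intro hc
      obtain ⟨w, hw, y, hy⟩ := mem_W_succ.1 hc
      have h1 : b ^ n • (b • y - u n • c) = a • (F a b u n • c - w) := by
        have : (a * F a b u n) • c + (b ^ n * u n) • c = a • w + b ^ (n + 1) • y := by
          rw [← hy, F, add_smul]
        rw [smul_sub, smul_sub, smul_smul, smul_smul, smul_smul]
        rw [pow_succ] at this
        rw [sub_eq_sub_iff_add_eq_add, ← add_comm (a • w)]
        rw [← this]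
      obtain ⟨z, h2, h3⟩ := h.pow n _ _ h1
      have h4 : F a b u n • c ∈ W a b M n := by
        have : F a b u n • c = w + b ^ n • z := by rw [← h3]; abel
        rw [this]
        exact Submodule.add_mem _ hw (b_mem_W a b n z)
      intro i hi
      rcases Nat.lt_succ_iff_lt_or_eq.1 hi with hi | rfl
      · exact ih.1 h4 i hi
      · refine mem_W_one.2 ⟨-z, y, ?_⟩
        rw [smul_neg, ← h2]; abel
    · intro hu
      have h1 := ih.2 fun i hi => hu i (hi.trans (Nat.lt_succ_self n))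
      obtain ⟨y, z, hyz⟩ := mem_W_one.1 (hu n (Nat.lt_succ_self n))
      refine mem_W_succ.2 ⟨F a b u n • c + b ^ n • y,
        Submodule.add_mem _ h1 (b_mem_W a b n y), z, ?_⟩
      rw [F, add_smul, mul_smul, mul_smul, hyz, smul_add, smul_add, smul_smul (b ^ n) b, ← pow_succ,
        smul_comm (b ^ n) a y]
      abel

theorem W_comap_a {a b : R} (h : RegularPair a b M) (n : ℕ) :
    (W a b M (n + 1)).comap (LinearMap.lsmul R M a) = W a b M n := by
  ext x
  constructor
  · intro hx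
    obtain ⟨w, hw, y, hy⟩ := mem_W_succ.1 hx
    have h1 : b ^ (n + 1) • y = a • (x - w) := by
      have : a • x = a • w + b ^ (n + 1) • y := hy
      rw [smul_sub, this]; abel
    obtain ⟨z, -, h3⟩ := h.pow (n + 1) _ _ h1
    have : x = w + b ^ n • (b • z) := by
      rw [smul_smul, ← pow_succ, ← h3]; abel
    rw [this]
    exact Submodule.add_mem _ hw (b_mem_W a b n _)
  · intro hx
    exact mem_W_succ.2 ⟨x, hx, 0, by simp⟩

/-- The submodule `a M + b^n M`. -/
def B (a b : R) (M : Type*) [AddCommGroup M] [Module R M] (n : ℕ) : Submodule R M :=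
  (⊤ : Submodule R M).map (LinearMap.lsmul R M a) ⊔ (⊤ : Submodule R M).map (LinearMap.lsmul R M (b ^ n))

theorem mem_B {a b : R} {n : ℕ} {x : M} :
    x ∈ B a b M n ↔ ∃ w y : M, x = a • w + b ^ n • y := by
  rw [B, Submodule.mem_sup]
  constructor
  · rintro ⟨_, ⟨w, hw, rfl⟩, _, ⟨y, -, rfl⟩, rfl⟩
    exact ⟨w, y, rfl⟩
  · rintro ⟨w, y, rfl⟩
    exact ⟨a • w, ⟨w, trivial, rfl⟩, b ^ n • y, ⟨y, trivial, rfl⟩, rfl⟩

theorem W_sup_a (a b : R) (n : ℕ) :
    W a b M (n + 1) ⊔ LinearMap.range (LinearMap.lsmul R M a) = B a b M (n + 1) := by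
  ext x
  rw [Submodule.mem_sup, mem_B]
  constructor
  · rintro ⟨v, hv, _, ⟨z, rfl⟩, rfl⟩
    obtain ⟨w, hw, y, rfl⟩ := mem_W_succ.1 hv
    exact ⟨w + z, y, by simp only [LinearMap.lsmul_apply, smul_add]; abel⟩
  · rintro ⟨w, y, rfl⟩
    exact ⟨b ^ (n + 1) • y, b_mem_W a b _ _, a • w, ⟨w, rfl⟩, by abel⟩

theorem B_comap_b {a b : R} (h : RegularPair a b M) (n : ℕ) :
    (B a b M (n + 1)).comap (LinearMap.lsmul R M b) = B a b M n := by
  ext x
  constructor
  · intro hx
    obtain ⟨w, y, hy⟩ := mem_B.1 hx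
    have h1 : b • (x - b ^ n • y) = a • w := by
      have : b • x = a • w + b ^ (n + 1) • y := hy
      rw [smul_sub, this, smul_smul, ← pow_succ']; abel
    obtain ⟨z, h3⟩ := h.snd _ _ h1
    exact mem_B.2 ⟨z, y, by rw [← h3]; abel⟩
  · intro hx
    obtain ⟨w, y, rfl⟩ := mem_B.1 hx
    exact mem_B.2 ⟨b • w, y, by
      simp only [LinearMap.lsmul_apply, smul_add, smul_smul, ← pow_succ', mul_comm a b]⟩

theorem B_sup_b (a b : R) (n : ℕ) :
    B a b M (n + 1) ⊔ LinearMap.range (LinearMap.lsmul R M b) = W a b M 1 := by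
  ext x
  rw [Submodule.mem_sup, mem_W_one]
  constructor
  · rintro ⟨v, hv, _, ⟨z, rfl⟩, rfl⟩
    obtain ⟨w, y, rfl⟩ := mem_B.1 hv
    exact ⟨w, b ^ n • y + z, by
      simp only [LinearMap.lsmul_apply, smul_add, smul_smul, ← pow_succ']; abel⟩
  · rintro ⟨w, y, rfl⟩
    exact ⟨a • w, mem_B.2 ⟨w, 0, by simp⟩, b • y, ⟨y, rfl⟩, by simp⟩

theorem B_zero (a b : R) : B a b M 0 = ⊤ := by
  rw [eq_top_iff]; intro x _
  exact mem_B.2 ⟨0, x, by simp⟩

section length

variable {k : Type*} [Field k] [Algebra k R] [Module k M] [IsScalarTower k R M]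

/-- The dimension over `k` of `M / N`. -/
noncomputable def cl (k : Type*) [Field k] [Algebra k R] [Module k M] [IsScalarTower k R M]
    (N : Submodule R M) : ℕ∞ := Module.length k (M ⧸ N)

theorem cl_add {M' : Type*} [AddCommGroup M'] [Module R M'] [Module k M'] [IsScalarTower k R M']
    (g : M →ₗ[R] M') (N : Submodule R M') :
    cl k N = cl k (N.comap g) + cl k (N ⊔ LinearMap.range g) := by
  let α : (M ⧸ N.comap g) →ₗ[k] (M' ⧸ N) :=
    (Submodule.mapQ (N.comap g) N g le_rfl).restrictScalars k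
  let β : (M' ⧸ N) →ₗ[k] (M' ⧸ (N ⊔ LinearMap.range g)) :=
    (Submodule.factor (le_sup_left : N ≤ N ⊔ LinearMap.range g)).restrictScalars k
  have hα : ∀ m : M, α (Submodule.Quotient.mk m) = Submodule.Quotient.mk (g m) := fun m => rfl
  have hβ : ∀ m : M', β (Submodule.Quotient.mk m) = Submodule.Quotient.mk m := fun m => rfl
  refine Module.length_eq_add_of_exact α β ?_ ?_ ?_
  · refine (injective_iff_map_eq_zero α).2 fun x hx => ?_
    obtain ⟨m, rfl⟩ := Submodule.Quotient.mk_surjective _ x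
    rw [hα, Submodule.Quotient.mk_eq_zero] at hx
    rw [Submodule.Quotient.mk_eq_zero]
    exact hx
  · intro x
    obtain ⟨m, rfl⟩ := Submodule.Quotient.mk_surjective _ x
    exact ⟨Submodule.Quotient.mk m, rfl⟩
  · intro x
    obtain ⟨m, rfl⟩ := Submodule.Quotient.mk_surjective _ x
    rw [hβ, Submodule.Quotient.mk_eq_zero]
    constructor
    · intro hm
      obtain ⟨v, hv, _, ⟨z, rfl⟩, rfl⟩ := Submodule.mem_sup.1 hm
      refine ⟨Submodule.Quotient.mk z, ?_⟩
      rw [hα, Submodule.Quotient.eq]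
      have : g z - (v + g z) = -v := by abel
      rw [this]
      exact N.neg_mem hv
    · rintro ⟨y, hy⟩
      obtain ⟨z, rfl⟩ := Submodule.Quotient.mk_surjective _ y
      rw [hα, Submodule.Quotient.eq] at hy
      have : m = -(g z - m) + g z := by abel
      rw [this]
      exact Submodule.add_mem _ (Submodule.mem_sup_left (N.neg_mem hy))
        (Submodule.mem_sup_right ⟨z, rfl⟩)

theorem cl_top : cl k (⊤ : Submodule R M) = 0 := by
  rw [cl, Module.length_eq_zero_iff]
  infer_instance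

theorem cl_B {a b : R} (h : RegularPair a b M) (n : ℕ) :
    cl k (B a b M n) = n • cl k (W a b M 1) := by
  induction n with
  | zero => rw [B_zero, cl_top, zero_smul]
  | succ n ih =>
    rw [cl_add (LinearMap.lsmul R M b) (B a b M (n + 1)), B_comap_b h, B_sup_b, ih, succ_nsmul]

theorem cl_W {a b : R} (h : RegularPair a b M) (n : ℕ) :
    cl k (W a b M n) = (n * (n + 1) / 2) • cl k (W a b M 1) := by
  induction n with
  | zero => rw [W, cl_top]; simp
  | succ n ih =>
    rw [cl_add (LinearMap.lsmul R M a) (W a b M (n + 1)), W_comap_a h, W_sup_a, ih, cl_B h,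
      ← add_nsmul]
    congr 1
    have : (n + 1) * (n + 1 + 1) = n * (n + 1) + (n + 1) * 2 := by ring
    rw [this, Nat.add_mul_div_right _ _ two_pos]

/-- The colength of `F M + (a, b)^n M`. -/
theorem cl_F {a b : R} (h : RegularPair a b M) (u : ℕ → R) (n : ℕ) (S : Submodule R M)
    (hS : ∀ c, c ∈ S ↔ ∀ i < n, u i • c ∈ W a b M 1) :
    cl k (W a b M n) = cl k S + cl k (W a b M n ⊔ LinearMap.range (LinearMap.lsmul R M (F a b u n))) := by
  rw [cl_add (LinearMap.lsmul R M (F a b u n)) (W a b M n)]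
  congr 2
  ext c
  rw [hS]
  exact F_mem h u n c

end length

end Pool.Agent.N397.NG
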