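import Mathlib
import Pool.Agent.N397.NG.Regular

/-! Limits of radical ideals: semicontinuity of the dimension of `C / J C`. -/

set_option autoImplicit false

open TensorProduct

namespace Pool.Agent.N397.NG

theorem nontrivial_aux {R : Type*} [CommRing R] {C : Type*} [AddCommGroup C] [Module R C]
    (F κ : Type*) [Field F] [Field κ] [Algebra R F] [Algebra R κ] [Algebra F κ]
    [IsScalarTower R F κ] [Nontrivial (F ⊗[R] C)] : Nontrivial (κ ⊗[R] C) := by
  have e := TensorProduct.AlgebraTensorModule.cancelBaseChange R F κ κ C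
  rw [← e.nontrivial_congr]
  exact Module.FaithfullyFlat.lTensor_nontrivial _ _ _

theorem nontrivial_aux' {R : Type*} [CommRing R] {C : Type*} [AddCommGroup C] [Module R C]
    (F κ : Type*) [Field F] [Field κ] [Algebra R F] [Algebra R κ] (f : F →+* κ)
    (hf : ∀ r, algebraMap R κ r = f (algebraMap R F r)) (h : Nontrivial (F ⊗[R] C)) :
    Nontrivial (κ ⊗[R] C) := by
  letI : Algebra F κ := f.toAlgebra
  haveI : IsScalarTower R F κ := IsScalarTower.of_algebraMap_eq hf
  exact nontrivial_aux F κ

theorem nontrivial_residue {R : Type*} [CommRing R] {C : Type*} [AddCommGroup C] [Module R C]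
    [Module.Finite R C] (hC : Module.annihilator R C = ⊥) (q : Ideal R) [hq : q.IsPrime] :
    Nontrivial (q.ResidueField ⊗[R] C) := by
  have h1 : (⟨q, hq⟩ : PrimeSpectrum R) ∈ Module.support R C := by
    rw [Module.support_eq_zeroLocus, hC]; simp
  exact (Module.mem_support_iff_nontrivial_residueField_tensorProduct (R := R) (M := C) ⟨q, hq⟩).1 h1

theorem nontrivial_tensor {R : Type*} [CommRing R] {C : Type*} [AddCommGroup C] [Module R C]
    [Module.Finite R C] (hC : Module.annihilator R C = ⊥) (κ : Type*) [Field κ] [Algebra R κ]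
    (q : Ideal R) [hq : q.IsPrime] (h : q = RingHom.ker (algebraMap R κ)) :
    Nontrivial (κ ⊗[R] C) := by
  have h3 : q.primeCompl ≤ (IsUnit.submonoid κ).comap (algebraMap R κ) := by
    intro r hr
    change IsUnit (algebraMap R κ r)
    rw [isUnit_iff_ne_zero]
    intro h0
    exact hr (h ▸ h0 : r ∈ q)
  exact nontrivial_aux' q.ResidueField κ (Ideal.ResidueField.lift q (algebraMap R κ) h.le h3)
    (fun r => (Ideal.ResidueField.lift_algebraMap q _ h.le h3 r).symm) (nontrivial_residue hC q)

/-- The elements of `C` which vanish in the fibre at `P`. -/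
noncomputable def KP (k R : Type*) [Field k] [CommRing R] [Algebra k R]
    (C : Type*) [AddCommGroup C] [Module R C] [Module k C] [IsScalarTower k R C]
    {D : Type*} [CommRing D] [Algebra R D] (P : PrimeSpectrum D) : Submodule k C :=
  (LinearMap.ker (TensorProduct.mk R P.asIdeal.ResidueField C 1)).restrictScalars k

theorem mem_KP (k R : Type*) [Field k] [CommRing R] [Algebra k R]
    (C : Type*) [AddCommGroup C] [Module R C] [Module k C] [IsScalarTower k R C]
    {D : Type*} [CommRing D] [Algebra R D] (P : PrimeSpectrum D) (c : C) :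
    c ∈ KP k R C P ↔ (1 : P.asIdeal.ResidueField) ⊗ₜ[R] c = 0 := Iff.rfl

theorem KP_ne_top (k R : Type*) [Field k] [CommRing R] [Algebra k R]
    (C : Type*) [AddCommGroup C] [Module R C] [Module k C] [IsScalarTower k R C]
    [Module.Finite R C] (hC : Module.annihilator R C = ⊥)
    {D : Type*} [CommRing D] [Algebra R D] (P : PrimeSpectrum D) : KP k R C P ≠ ⊤ := by
  intro hP
  haveI : (RingHom.ker (algebraMap R P.asIdeal.ResidueField)).IsPrime := RingHom.ker_isPrime _
  have hn : Nontrivial (P.asIdeal.ResidueField ⊗[R] C) :=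
    nontrivial_tensor hC _ (RingHom.ker (algebraMap R P.asIdeal.ResidueField)) rfl
  obtain ⟨n, hn⟩ := exists_ne (0 : P.asIdeal.ResidueField ⊗[R] C)
  apply hn
  induction n with
  | zero => rfl
  | add x y hx hy =>
    have : ∀ n : P.asIdeal.ResidueField ⊗[R] C, n = 0 := by
      intro n
      induction n with
      | zero => rfl
      | add x y hx hy => rw [hx, hy, add_zero]
      | tmul z c =>
        have : c ∈ KP k R C P := by rw [hP]; trivial
        rw [mem_KP] at this
        have h2 : z ⊗ₜ[R] c = z • ((1 : P.asIdeal.ResidueField) ⊗ₜ[R] c) := by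
          rw [TensorProduct.smul_tmul', smul_eq_mul, mul_one]
        rw [h2, this, smul_zero]
    exact this _
  | tmul z c =>
    have : c ∈ KP k R C P := by rw [hP]; trivial
    rw [mem_KP] at this
    have h2 : z ⊗ₜ[R] c = z • ((1 : P.asIdeal.ResidueField) ⊗ₜ[R] c) := by
      rw [TensorProduct.smul_tmul', smul_eq_mul, mul_one]
    rw [h2, this, smul_zero]

theorem not_mem_KP (k : Type*) [Field k] {R : Type*} [CommRing R] [Algebra k R]
    {C : Type*} [AddCommGroup C] [Module R C] [Module k C] [IsScalarTower k R C]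
    {D : Type*} [CommRing D] [Algebra R D] (P : PrimeSpectrum D) {x : C} (h3 : x ∉ KP k R C P)
    {y : D} (hy : y ⊗ₜ[R] x = 0) : y ∈ P.asIdeal := by
  rw [mem_KP] at h3
  have h4 : (algebraMap D P.asIdeal.ResidueField y) ⊗ₜ[R] x = 0 := by
    have := congrArg (TensorProduct.map
      ((IsScalarTower.toAlgHom R D P.asIdeal.ResidueField).toLinearMap)
      (LinearMap.id : C →ₗ[R] C)) hy
    simpa using this
  have h5 : (algebraMap D P.asIdeal.ResidueField y) •
      ((1 : P.asIdeal.ResidueField) ⊗ₜ[R] x) = 0 := by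
    rw [TensorProduct.smul_tmul', smul_eq_mul, mul_one]; exact h4
  rcases smul_eq_zero.1 h5 with h6 | h6
  · exact (Ideal.algebraMap_residueField_eq_zero).1 h6
  · exact absurd h6 h3

theorem exists_faithful (k : Type*) [Field k] [Infinite k] {R : Type*} [CommRing R] [Algebra k R]
    {C : Type*} [AddCommGroup C] [Module R C] [Module k C] [IsScalarTower k R C]
    [Module.Finite R C] (hC : Module.annihilator R C = ⊥)
    {D : Type*} [CommRing D] [IsNoetherianRing D] [IsReduced D] [Algebra R D] :
    ∃ x : C, ∀ y : D, y ⊗ₜ[R] x = 0 → y = 0 := by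
  classical
  have hfin : (minimalPrimes D).Finite := minimalPrimes.finite_of_isNoetherianRing D
  have : Fintype (minimalPrimes D) := hfin.fintype
  let g : minimalPrimes D → PrimeSpectrum D := fun P => ⟨P.1, Ideal.IsMinimalPrime.isPrime P.2⟩
  let s : Finset (Submodule k C) := Finset.univ.image fun P => KP k R C (g P)
  have hs : ⊤ ∉ s := by
    intro h
    obtain ⟨P, -, hP⟩ := Finset.mem_image.1 h
    exact KP_ne_top k R C hC (g P) hP
  have h1 := Subspace.biUnion_ne_univ_of_top_notMem hs
  obtain ⟨x, hx⟩ := (Set.ne_univ_iff_exists_notMem _).1 h1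
  refine ⟨x, fun y hy => ?_⟩
  have h2 : ∀ P : minimalPrimes D, y ∈ P.1 := by
    intro P
    have h3 : x ∉ KP k R C (g P) := by
      intro h4
      apply hx
      refine Set.mem_iUnion₂.2 ⟨KP k R C (g P), ?_, h4⟩
      exact Finset.mem_image.2 ⟨P, Finset.mem_univ _, rfl⟩
    exact not_mem_KP k (g P) h3 hy
  have h3 : y ∈ nilradical D := by
    rw [nilradical, ← Ideal.sInf_minimalPrimes]
    exact Submodule.mem_sInf.2 fun P hP => h2 ⟨P, hP⟩
  rw [nilradical_eq_zero] at h3
  exact h3

theorem smul_top_tmul {V R D C : Type*} [CommRing V] [CommRing R] [CommRing D] [Algebra V D]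
    [Algebra R D] [AddCommGroup C] [Module R C] [SMulCommClass R V D] (I : Ideal V) (y : D) (c : C)
    (hy : y ∈ I • (⊤ : Submodule V D)) : y ⊗ₜ[R] c ∈ I • (⊤ : Submodule V (D ⊗[R] C)) := by
  refine Submodule.smul_induction_on hy (fun v hv d _ => ?_) (fun a b ha hb => ?_)
  · rw [← TensorProduct.smul_tmul']
    exact Submodule.smul_mem_smul hv trivial
  · rw [TensorProduct.add_tmul]
    exact Submodule.add_mem _ ha hb

theorem finrank_le_of_family {k : Type*} [Field k] [Infinite k] {R : Type*} [CommRing R]
    [Algebra k R] {C : Type*} [AddCommGroup C] [Module R C] [Module k C] [IsScalarTower k R C]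
    [Module.Finite R C] (hC : Module.annihilator R C = ⊥)
    {V : Type*} [CommRing V] [IsDomain V] [IsLocalRing V] [IsNoetherianRing V] [Algebra k V]
    {D : Type*} [CommRing D] [IsReduced D] [Algebra R D] [Algebra V D] [SMulCommClass R V D]
    [Module.Finite V D] [Module.Free V D]
    (hk : ∀ c : k, algebraMap R D (algebraMap k R c) = algebraMap V D (algebraMap k V c))
    (J : Ideal R)
    (hJ : ∀ j ∈ J, algebraMap R D j ∈ (IsLocalRing.maximalIdeal V) • (⊤ : Submodule V D))
    (hs : ∀ y : D, ∃ r : R, y - algebraMap R D r ∈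
      (IsLocalRing.maximalIdeal V) • (⊤ : Submodule V D))
    {m : ℕ} (g : Fin m → C)
    (hg : ∀ c : C, ∃ l : Fin m → k, c - ∑ i, l i • g i ∈ J • (⊤ : Submodule R C)) :
    Module.finrank V D ≤ m := by
  have : IsNoetherianRing D := IsNoetherianRing.of_finite V D
  obtain ⟨x, hx⟩ := exists_faithful k hC (D := D)
  let j : D →ₗ[V] (D ⊗[R] C) :=
    { toFun := fun y => y ⊗ₜ[R] x
      map_add' := fun a b => TensorProduct.add_tmul a b x
      map_smul' := fun v a => (TensorProduct.smul_tmul' v a x).symm }
  let p : (Fin m → V) →ₗ[V] (D ⊗[R] C) := Fintype.linearCombination V (fun i => (1 : D) ⊗ₜ[R] g i)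
  have hp : Function.Surjective p := by
    rw [← LinearMap.range_eq_top, eq_top_iff]
    have : Module.Finite V (D ⊗[R] C) := Module.Finite.trans D (D ⊗[R] C)
    refine Submodule.le_of_le_smul_of_le_jacobson_bot (I := IsLocalRing.maximalIdeal V)
      Module.Finite.fg_top (IsLocalRing.maximalIdeal_le_jacobson _) ?_
    have hkey : ∀ c : C, (1 : D) ⊗ₜ[R] c ∈ LinearMap.range p ⊔
        (IsLocalRing.maximalIdeal V) • (⊤ : Submodule V (D ⊗[R] C)) := by
      intro c
      obtain ⟨l, hl⟩ := hg c
      have e1 : (1 : D) ⊗ₜ[R] c = (∑ i, algebraMap k V (l i) • ((1 : D) ⊗ₜ[R] g i)) +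
          (1 : D) ⊗ₜ[R] (c - ∑ i, l i • g i) := by
        rw [TensorProduct.tmul_sub, TensorProduct.tmul_sum]
        have : ∀ i, (1 : D) ⊗ₜ[R] (l i • g i) = algebraMap k V (l i) • ((1 : D) ⊗ₜ[R] g i) := by
          intro i
          rw [← IsScalarTower.algebraMap_smul R (l i) (g i), TensorProduct.tmul_smul,
            TensorProduct.smul_tmul', TensorProduct.smul_tmul', Algebra.smul_def,
            Algebra.smul_def, hk]
        simp_rw [this]
        abel
      rw [e1]
      refine Submodule.add_mem _ (Submodule.mem_sup_left ?_) (Submodule.mem_sup_right ?_)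
      · exact ⟨fun i => algebraMap k V (l i), by simp [p, Fintype.linearCombination_apply]⟩
      · refine Submodule.smul_induction_on hl (fun r hr d _ => ?_) (fun a b ha hb => ?_)
        · rw [TensorProduct.tmul_smul, TensorProduct.smul_tmul', Algebra.smul_def, mul_one]
          exact smul_top_tmul _ _ _ (hJ r hr)
        · rw [TensorProduct.tmul_add]
          exact Submodule.add_mem _ ha hb
    intro n _
    induction n with
    | zero => exact Submodule.zero_mem _
    | add a b ha hb => exact Submodule.add_mem _ (ha trivial) (hb trivial)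
    | tmul y c =>
      obtain ⟨r, hr⟩ := hs y
      have e : y ⊗ₜ[R] c = (y - algebraMap R D r) ⊗ₜ[R] c + (1 : D) ⊗ₜ[R] (r • c) := by
        rw [TensorProduct.tmul_smul, TensorProduct.smul_tmul', Algebra.smul_def, mul_one,
          ← TensorProduct.add_tmul]
        congr 1; ring
      rw [e]
      exact Submodule.add_mem _ (Submodule.mem_sup_right (smul_top_tmul _ _ _ hr)) (hkey _)
  obtain ⟨l, hl⟩ := Module.projective_lifting_property p j hp
  have hlinj : Function.Injective l := by
    refine (injective_iff_map_eq_zero l).2 fun y hy => hx y ?_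
    have : j y = p (l y) := by rw [← hl]; rfl
    change j y = 0
    rw [this, hy, map_zero]
  have := LinearMap.finrank_le_finrank_of_injective hlinj
  simpa using this

end Pool.Agent.N397.NG
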