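import Mathlib
import Pool.Agent.N397.NG.Limit

/-! Limits of radical ideals over discrete valuation rings. -/

set_option autoImplicit false

open TensorProduct

namespace Pool.Agent.N397.NG

universe u

/-- The restriction `V ⊗ R → R` to the special fibre, for the `k`-point `π` of `V`. -/
noncomputable def special {k V R : Type*} [Field k] [CommRing V] [Algebra k V] [CommRing R]
    [Algebra k R] (π : V →ₐ[k] k) : V ⊗[k] R →ₐ[k] R :=
  Algebra.TensorProduct.lift ((Algebra.ofId k R).comp π) (AlgHom.id k R)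
    (fun _ _ => Commute.all _ _)

/-- The ideal `J` of `R` is a limit of radical ideals: there are a discrete valuation ring `V` over `k`
with residue field `k` and a radical ideal `I` of `V ⊗ R`, with `(V ⊗ R) / I` finite and free over
`V`, whose special fibre is `J`. -/
def IsLimitOfReduced (k : Type u) [Field k] {R : Type u} [CommRing R] [Algebra k R]
    (J : Ideal R) : Prop :=
  ∃ (V : Type u) (_ : CommRing V) (_ : IsDomain V) (_ : IsDiscreteValuationRing V)
    (_ : Algebra k V) (π : V →ₐ[k] k) (I : Ideal (V ⊗[k] R)),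
    Module.Finite V ((V ⊗[k] R) ⧸ I) ∧ Module.Free V ((V ⊗[k] R) ⧸ I) ∧ I.IsRadical ∧
    I.map (special π) = J

section

variable {k V R : Type*} [Field k] [CommRing V] [Algebra k V] [CommRing R] [Algebra k R]

theorem special_tmul (π : V →ₐ[k] k) (v : V) (r : R) :
    special π (v ⊗ₜ[k] r) = π v • r := by
  rw [special, Algebra.TensorProduct.lift_tmul]
  simp [Algebra.ofId_apply, Algebra.smul_def]

theorem special_surjective (π : V →ₐ[k] k) :
    Function.Surjective (special π : V ⊗[k] R →ₐ[k] R) := fun r =>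
  ⟨1 ⊗ₜ r, by rw [special_tmul]; simp⟩

theorem special_smul (π : V →ₐ[k] k) (v : V) (x : V ⊗[k] R) :
    special π (v • x) = π v • special π x := by
  have : v • x = (v ⊗ₜ[k] (1 : R)) * x := by
    rw [Algebra.smul_def, Algebra.TensorProduct.algebraMap_apply]; rfl
  rw [this, map_mul, special_tmul, smul_mul_assoc, one_mul]

theorem sub_special [IsLocalRing V] (π : V →ₐ[k] k) (x : V ⊗[k] R) :
    x - (1 : V) ⊗ₜ[k] (special π x) ∈
      (IsLocalRing.maximalIdeal V) • (⊤ : Submodule V (V ⊗[k] R)) := by
  induction x with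
  | zero => simp
  | add x y hx hy =>
    rw [map_add, TensorProduct.tmul_add]
    have : x + y - ((1 : V) ⊗ₜ[k] special π x + (1 : V) ⊗ₜ[k] special π y) =
        (x - (1 : V) ⊗ₜ[k] special π x) + (y - (1 : V) ⊗ₜ[k] special π y) := by abel
    rw [this]
    exact Submodule.add_mem _ hx hy
  | tmul v r =>
    have h1 : v - algebraMap k V (π v) ∈ IsLocalRing.maximalIdeal V := by
      rw [IsLocalRing.mem_maximalIdeal, mem_nonunits_iff]
      intro hu
      have := hu.map π
      rw [map_sub, AlgHom.commutes] at this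
      simp at this
    have h2 : v ⊗ₜ[k] r - (1 : V) ⊗ₜ[k] (special π (v ⊗ₜ[k] r)) =
        (v - algebraMap k V (π v)) • ((1 : V) ⊗ₜ[k] r) := by
      rw [special_tmul, TensorProduct.tmul_smul, TensorProduct.smul_tmul', TensorProduct.smul_tmul',
        ← TensorProduct.sub_tmul, smul_eq_mul, mul_one, Algebra.algebraMap_eq_smul_one]
    rw [h2]
    exact Submodule.smul_mem_smul h1 trivial

end

theorem cl_mono {R M k : Type*} [CommRing R] [AddCommGroup M] [Module R M] [Field k] [Algebra k R]
    [Module k M] [IsScalarTower k R M] {N N' : Submodule R M} (h : N ≤ N') :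
    cl k N' ≤ cl k N :=
  Module.length_le_of_surjective ((Submodule.factor h).restrictScalars k)
    (Submodule.factor_surjective h)

/-- For a limit `J` of radical ideals, `dim R / J ≤ dim C / J C` for every finite faithful `C`. -/
theorem cl_le_of_limit {k : Type u} [Field k] [Infinite k] {R : Type u} [CommRing R]
    [Algebra k R] {J : Ideal R} (h : IsLimitOfReduced k J) {C : Type u} [AddCommGroup C]
    [Module R C] [Module k C] [IsScalarTower k R C] [Module.Finite R C]
    (hC : Module.annihilator R C = ⊥) :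
    cl k (J : Submodule R R) ≤ cl k (J • (⊤ : Submodule R C)) := by
  by_cases htop : cl k (J • (⊤ : Submodule R C)) = ⊤
  · rw [htop]; exact le_top
  obtain ⟨V, _, _, _, _, π, I, hfin, hfree, hrad, hmap⟩ := h
  have hred : IsReduced ((V ⊗[k] R) ⧸ I) := (Ideal.isRadical_iff_quotient_reduced I).1 hrad
  letI : Algebra R ((V ⊗[k] R) ⧸ I) := ((Ideal.Quotient.mk I).comp
    (Algebra.TensorProduct.includeRight : R →ₐ[k] V ⊗[k] R).toRingHom).toAlgebra
  have hR : ∀ r : R, algebraMap R ((V ⊗[k] R) ⧸ I) r = Ideal.Quotient.mk I (1 ⊗ₜ r) := fun _ => rfl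
  have hV : ∀ v : V, algebraMap V ((V ⊗[k] R) ⧸ I) v = Ideal.Quotient.mk I (v ⊗ₜ 1) := fun _ => rfl
  have : SMulCommClass R V ((V ⊗[k] R) ⧸ I) := ⟨fun r v d => by
    rw [Algebra.smul_def, Algebra.smul_def, mul_smul_comm]⟩
  have hmk : ∀ x ∈ (IsLocalRing.maximalIdeal V) • (⊤ : Submodule V (V ⊗[k] R)),
      Ideal.Quotient.mk I x ∈
        (IsLocalRing.maximalIdeal V) • (⊤ : Submodule V ((V ⊗[k] R) ⧸ I)) := by
    intro x hx
    refine Submodule.smul_induction_on hx (fun v hv d _ => ?_) (fun a b ha hb => ?_)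
    · have : Ideal.Quotient.mk I (v • d) = v • Ideal.Quotient.mk I d := rfl
      rw [this]
      exact Submodule.smul_mem_smul hv trivial
    · rw [map_add]
      exact Submodule.add_mem _ ha hb
  have hfl : IsFiniteLength k (C ⧸ J • (⊤ : Submodule R C)) := Module.length_ne_top_iff.1 htop
  have hnoe : IsNoetherian k (C ⧸ J • (⊤ : Submodule R C)) :=
    (isFiniteLength_iff_isNoetherian_isArtinian.1 hfl).1
  have hfinC : Module.Finite k (C ⧸ J • (⊤ : Submodule R C)) := inferInstance
  let bas := Module.finBasis k (C ⧸ J • (⊤ : Submodule R C))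
  choose g hg using fun i => Submodule.Quotient.mk_surjective (J • (⊤ : Submodule R C)) (bas i)
  have h1 : Module.finrank V ((V ⊗[k] R) ⧸ I) ≤ Module.finrank k (C ⧸ J • (⊤ : Submodule R C)) := by
    refine finrank_le_of_family (k := k) hC (V := V) (D := (V ⊗[k] R) ⧸ I) ?_ J ?_ ?_ g ?_
    · intro c
      rw [hR, hV]
      congr 1
      rw [Algebra.algebraMap_eq_smul_one, Algebra.algebraMap_eq_smul_one, TensorProduct.smul_tmul]
    · intro j hj
      rw [← hmap, Ideal.mem_map_iff_of_surjective _ (special_surjective π)] at hj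
      obtain ⟨x, hx, rfl⟩ := hj
      have h2 : algebraMap R ((V ⊗[k] R) ⧸ I) (special π x) =
          -(Ideal.Quotient.mk I (x - (1 : V) ⊗ₜ[k] (special π x))) := by
        rw [hR, map_sub, Ideal.Quotient.eq_zero_iff_mem.2 hx]; simp
      rw [h2]
      exact Submodule.neg_mem _ (hmk _ (sub_special π x))
    · intro y
      obtain ⟨x, rfl⟩ := Ideal.Quotient.mk_surjective y
      refine ⟨special π x, ?_⟩
      rw [hR, ← map_sub]
      exact hmk _ (sub_special π x)
    · intro c
      refine ⟨fun i => bas.repr (Submodule.Quotient.mk c) i, ?_⟩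
      rw [← Submodule.Quotient.mk_eq_zero, Submodule.Quotient.mk_sub]
      have h3 : Submodule.Quotient.mk (p := J • (⊤ : Submodule R C))
          (∑ i, bas.repr (Submodule.Quotient.mk c) i • g i) =
          ∑ i, bas.repr (Submodule.Quotient.mk c) i • bas i := by
        rw [← Submodule.mkQ_apply, map_sum]
        refine Finset.sum_congr rfl fun i _ => ?_
        rw [← hg i]; rfl
      rw [h3, bas.sum_repr, sub_self]
  have h2 : cl k (J : Submodule R R) ≤ Module.finrank V ((V ⊗[k] R) ⧸ I) := by
    let b := Module.finBasis V ((V ⊗[k] R) ⧸ I)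
    let θ : ((V ⊗[k] R) ⧸ I) →+* (R ⧸ J) := Ideal.Quotient.lift I
      ((Ideal.Quotient.mk J).comp (special π).toRingHom) (by
        intro x hx
        change Ideal.Quotient.mk J (special π x) = 0
        rw [Ideal.Quotient.eq_zero_iff_mem, ← hmap]
        exact Ideal.mem_map_of_mem _ hx)
    have hθ : ∀ (v : V) (y : (V ⊗[k] R) ⧸ I), θ (v • y) = π v • θ y := by
      intro v y
      obtain ⟨x, rfl⟩ := Ideal.Quotient.mk_surjective y
      change Ideal.Quotient.mk J (special π (v • x)) = π v • Ideal.Quotient.mk J (special π x)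
      rw [special_smul]; rfl
    let T : (Fin (Module.finrank V ((V ⊗[k] R) ⧸ I)) → k) →ₗ[k] (R ⧸ (J : Submodule R R)) :=
      Fintype.linearCombination k (fun i => (θ (b i) : R ⧸ J))
    have hT : Function.Surjective T := by
      intro z
      obtain ⟨r, rfl⟩ := Submodule.Quotient.mk_surjective _ z
      let y : (V ⊗[k] R) ⧸ I := Ideal.Quotient.mk I (1 ⊗ₜ r)
      refine ⟨fun i => π (b.repr y i), ?_⟩
      have h4 : θ y = Ideal.Quotient.mk J r := by
        change Ideal.Quotient.mk J (special π (1 ⊗ₜ r)) = _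
        rw [special_tmul]; simp
      have h5 : θ y = ∑ i, π (b.repr y i) • θ (b i) := by
        conv_lhs => rw [← b.sum_repr y]
        rw [map_sum]
        exact Finset.sum_congr rfl fun i _ => hθ _ _
      change (∑ i, π (b.repr y i) • θ (b i) : R ⧸ J) = Ideal.Quotient.mk J r
      rw [← h5, h4]
    have h6 := Module.length_le_of_surjective T hT
    rw [Module.length_eq_finrank k (Fin (Module.finrank V ((V ⊗[k] R) ⧸ I)) → k),
      Module.finrank_fin_fun] at h6
    exact h6
  refine h2.trans ?_
  have h7 : cl k (J • (⊤ : Submodule R C)) = Module.finrank k (C ⧸ J • (⊤ : Submodule R C)) :=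
    Module.length_eq_finrank _ _
  rw [h7]
  exact_mod_cast h1

end Pool.Agent.N397.NG
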