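import Mathlib
import Pool.Agent.N397.NG.Family

/-! Cohen-Macaulay local rings of dimension two which are not Gorenstein. -/

set_option autoImplicit false

open TensorProduct

namespace Pool.Agent.N397.NG

universe u

section dual

variable {k R X : Type*} [Field k] [CommRing R] [IsLocalRing R] [Algebra k R] [AddCommGroup X]
  [Module R X] [Module k X] [IsScalarTower k R X]

/-- An Artinian module over a local ring: every non-zero cyclic submodule contains a non-zero element
killed by the maximal ideal. -/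
theorem exists_socle [IsArtinian R X] {x : X} (hx : x ≠ 0) :
    ∃ r : R, r • x ≠ 0 ∧ ∀ s ∈ IsLocalRing.maximalIdeal R, s • (r • x) = 0 := by
  have : IsAtomic (Submodule R X) := isAtomic_of_orderBot_wellFounded_lt wellFounded_lt
  rcases eq_bot_or_exists_atom_le (Submodule.span R {x}) with h | ⟨S, hS, hSx⟩
  · exact absurd (Submodule.span_singleton_eq_bot.1 h) hx
  · obtain ⟨y, hy, hy0⟩ := S.exists_mem_ne_zero_of_ne_bot hS.1
    obtain ⟨r, rfl⟩ := Submodule.mem_span_singleton.1 (hSx hy)
    refine ⟨r, hy0, fun s hs => ?_⟩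
    by_contra hne
    have h1 : Submodule.span R {s • (r • x)} = S := by
      rcases hS.le_iff.1 (show Submodule.span R {s • (r • x)} ≤ S by
        rw [Submodule.span_singleton_le_iff_mem]; exact S.smul_mem s hy) with h | h
      · exact absurd (Submodule.span_singleton_eq_bot.1 h) hne
      · exact h
    obtain ⟨t, ht⟩ := Submodule.mem_span_singleton.1 (h1 ▸ hy : r • x ∈ _)
    have h2 : IsUnit (1 - t * s) := by
      have h3 : t * s ∈ nonunits R :=
        (IsLocalRing.mem_maximalIdeal _).1 (Ideal.mul_mem_left _ t hs)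
      exact IsLocalRing.isUnit_one_sub_self_of_mem_nonunits _ h3
    have h4 : (1 - t * s) • (r • x) = 0 := by
      rw [sub_smul, one_smul, mul_smul, ht, sub_self]
    exact hy0 ((h2.smul_eq_zero).1 h4)

/-- If the socle of `X` is one-dimensional and `X` is killed by `Q`, then `dim X ≤ dim R / Q`. -/
theorem length_le_dual (Q : Submodule R R) [Module.Finite k (R ⧸ Q)] [Module.Finite k X]
    (hQ : ∀ q ∈ Q, ∀ x : X, q • x = 0)
    (hs : Module.finrank k
      (Submodule.torsionBySet R X (IsLocalRing.maximalIdeal R : Set R)) = 1) :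
    Module.length k X ≤ Module.length k (R ⧸ Q) := by
  have : IsArtinian R X := isArtinian_of_tower k (inferInstance : IsArtinian k X)
  obtain ⟨s0, hs0, hs1⟩ := finrank_eq_one_iff'.1 hs
  have h0 : (s0 : X) ≠ 0 := by simpa using hs0
  obtain ⟨l, hl⟩ : ∃ l : Module.Dual k X, l (s0 : X) ≠ 0 := by
    by_contra hcon
    push Not at hcon
    exact h0 ((Module.forall_dual_apply_eq_zero_iff k (s0 : X)).1 hcon)
  let bas := Module.finBasis k (R ⧸ Q)
  choose ρ hρ using fun i => Submodule.Quotient.mk_surjective Q (bas i)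
  have hr : ∀ (r : R) (x : X), r • x = ∑ i, bas.repr (Submodule.Quotient.mk r) i • (ρ i • x) := by
    intro r x
    have h3 : Submodule.Quotient.mk (p := Q)
        (∑ i, bas.repr (Submodule.Quotient.mk r) i • ρ i) = Submodule.Quotient.mk r := by
      rw [← Submodule.mkQ_apply, map_sum]
      conv_rhs => rw [← bas.sum_repr (Submodule.Quotient.mk r)]
      refine Finset.sum_congr rfl fun i _ => ?_
      rw [← hρ i]; rfl
    have h4 : r - ∑ i, bas.repr (Submodule.Quotient.mk r) i • ρ i ∈ Q := by
      rw [← Submodule.Quotient.mk_eq_zero, Submodule.Quotient.mk_sub, h3, sub_self]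
    have h5 := hQ _ h4 x
    rw [sub_smul, sub_eq_zero, Finset.sum_smul] at h5
    rw [h5]
    exact Finset.sum_congr rfl fun i _ => smul_assoc _ _ _
  let Ψ : X →ₗ[k] (Fin (Module.finrank k (R ⧸ Q)) → k) :=
    LinearMap.pi fun i => l ∘ₗ (LinearMap.lsmul R X (ρ i)).restrictScalars k
  have hΨ : Function.Injective Ψ := by
    refine (injective_iff_map_eq_zero Ψ).2 fun x hx => ?_
    by_contra hx0
    obtain ⟨r, hr0, hr'⟩ := exists_socle (R := R) hx0
    have hmem : r • x ∈ Submodule.torsionBySet R X (IsLocalRing.maximalIdeal R : Set R) := by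
      rw [Submodule.mem_torsionBySet_iff]
      exact fun s => hr' s.1 s.2
    obtain ⟨c, hc⟩ := hs1 ⟨r • x, hmem⟩
    have hc' : c • (s0 : X) = r • x := congrArg Subtype.val hc
    have h1 : l (r • x) = 0 := by
      rw [hr r x, map_sum]
      refine Finset.sum_eq_zero fun i _ => ?_
      have h2 : l (ρ i • x) = 0 := congrFun hx i
      rw [map_smul, h2, smul_zero]
    rw [← hc', map_smul, smul_eq_mul] at h1
    rcases mul_eq_zero.1 h1 with h2 | h2
    · apply hr0; rw [← hc', h2, zero_smul]
    · exact hl h2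
  have h6 := Module.length_le_of_injective Ψ hΨ
  rw [Module.length_eq_finrank k (Fin (Module.finrank k (R ⧸ Q)) → k), Module.finrank_fin_fun] at h6
  rw [Module.length_eq_finrank k (R ⧸ Q)]
  exact h6

end dual

/-- `C / Q C` is finite over `k`. -/
theorem finite_quotient {k R C : Type*} [Field k] [CommRing R] [Algebra k R] [AddCommGroup C]
    [Module R C] [Module k C] [IsScalarTower k R C] [Module.Finite R C] (Q : Submodule R R)
    [Module.Finite k (R ⧸ Q)] (N : Submodule R C) (hQ : ∀ q ∈ Q, ∀ x : C, q • x ∈ N) :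
    Module.Finite k (C ⧸ N) := by
  obtain ⟨n, c, hc⟩ := Module.Finite.exists_fin (R := R) (M := C)
  let L : Fin n → ((R ⧸ Q) →ₗ[R] (C ⧸ N)) := fun i =>
    Submodule.liftQ Q (LinearMap.toSpanSingleton R (C ⧸ N) (Submodule.Quotient.mk (c i)))
      (fun q hq => by
        change q • (Submodule.Quotient.mk (c i) : C ⧸ N) = 0
        rw [← Submodule.Quotient.mk_smul, Submodule.Quotient.mk_eq_zero]
        exact hQ q hq _)
  let T : (Fin n → (R ⧸ Q)) →ₗ[R] (C ⧸ N) := ∑ i, (L i) ∘ₗ LinearMap.proj i
  have hT : Function.Surjective T := by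
    have h1 : ∀ x : C, (Submodule.Quotient.mk x : C ⧸ N) ∈ LinearMap.range T := by
      intro x
      have hx : x ∈ Submodule.span R (Set.range c) := by rw [hc]; trivial
      refine Submodule.span_induction (p := fun x _ => (Submodule.Quotient.mk x : C ⧸ N) ∈
        LinearMap.range T) ?_ ?_ ?_ ?_ hx
      · rintro _ ⟨i, rfl⟩
        refine ⟨Pi.single i (Submodule.Quotient.mk 1), ?_⟩
        have : T (Pi.single i (Submodule.Quotient.mk 1)) =
            ∑ j, L j (Pi.single (M := fun _ => R ⧸ Q) i (Submodule.Quotient.mk 1) j) := by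
          simp [T]
        rw [this, Finset.sum_eq_single i]
        · rw [Pi.single_eq_same]
          change (1 : R) • (Submodule.Quotient.mk (c i) : C ⧸ N) = _
          rw [one_smul]
        · intro j _ hj
          rw [Pi.single_eq_of_ne hj, map_zero]
        · intro h; exact absurd (Finset.mem_univ i) h
      · rw [Submodule.Quotient.mk_zero]; exact Submodule.zero_mem _
      · intro x y _ _ hx hy
        rw [Submodule.Quotient.mk_add]; exact Submodule.add_mem _ hx hy
      · intro r x _ hx
        rw [Submodule.Quotient.mk_smul]; exact Submodule.smul_mem _ r hx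
    intro z
    obtain ⟨x, rfl⟩ := Submodule.Quotient.mk_surjective _ z
    exact h1 x
  exact Module.Finite.of_surjective (T.restrictScalars k) hT

section main

variable {k R : Type*} [Field k] [CommRing R] [IsLocalRing R] [Algebra k R]
  {M : Type*} [AddCommGroup M] [Module R M] [Module k M] [IsScalarTower k R M]

/-- The elements of `M` which are in the socle of `M / (a, b) M`. -/
def S (a b : R) (M : Type*) [AddCommGroup M] [Module R M] : Submodule R M :=
  (Submodule.torsionBySet R (M ⧸ W a b M 1) (IsLocalRing.maximalIdeal R : Set R)).comap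
    (W a b M 1).mkQ

theorem mem_S {a b : R} {n : ℕ} (u : ℕ → R)
    (hu : Ideal.span {x | ∃ i < n, x = u i} = IsLocalRing.maximalIdeal R) (c : M) :
    c ∈ S a b M ↔ ∀ i < n, u i • c ∈ W a b M 1 := by
  rw [S, Submodule.mem_comap, Submodule.mem_torsionBySet_iff]
  constructor
  · intro h i hi
    have h1 : u i ∈ IsLocalRing.maximalIdeal R := by
      rw [← hu]; exact Ideal.subset_span ⟨i, hi, rfl⟩
    have := h ⟨u i, h1⟩
    change u i • (W a b M 1).mkQ c = 0 at this
    rw [← map_smul, Submodule.mkQ_apply, Submodule.Quotient.mk_eq_zero] at this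
    exact this
  · rintro h ⟨s, hs⟩
    change s • (W a b M 1).mkQ c = 0
    rw [← map_smul, Submodule.mkQ_apply, Submodule.Quotient.mk_eq_zero]
    have hs' : s ∈ Ideal.span {x | ∃ i < n, x = u i} := by rw [hu]; exact hs
    refine Submodule.span_induction (p := fun s _ => s • c ∈ W a b M 1) ?_ ?_ ?_ ?_ hs'
    · rintro _ ⟨i, hi, rfl⟩; exact h i hi
    · rw [zero_smul]; exact Submodule.zero_mem _
    · intro x y _ _ hx hy; rw [add_smul]; exact Submodule.add_mem _ hx hy
    · intro r x _ hx; rw [smul_eq_mul, mul_smul]; exact Submodule.smul_mem _ r hx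

theorem cl_S (a b : R) :
    cl k (W a b M 1) = Module.length k (Submodule.torsionBySet R (M ⧸ W a b M 1)
      (IsLocalRing.maximalIdeal R : Set R)) + cl k (S a b M) := by
  set T := Submodule.torsionBySet R (M ⧸ W a b M 1) (IsLocalRing.maximalIdeal R : Set R) with hT
  have h1 : cl k T = cl k (S a b M) := by
    have := cl_add (k := k) (W a b M 1).mkQ T
    rw [Submodule.range_mkQ, sup_top_eq, cl_top, add_zero] at this
    exact this
  rw [← h1]
  exact Module.length_eq_add_of_exact (T.subtype.restrictScalars k) (T.mkQ.restrictScalars k)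
    T.injective_subtype T.mkQ_surjective
    (by intro x; exact (LinearMap.exact_subtype_mkQ T) x)

theorem W_le_smul (a b : R) (n : ℕ) :
    W a b M n ≤ (W a b R n : Ideal R) • (⊤ : Submodule R M) := by
  induction n with
  | zero =>
    intro x _
    have h1 : (1 : R) ∈ (W a b R 0 : Ideal R) := trivial
    have := Submodule.smul_mem_smul h1 (Submodule.mem_top : x ∈ (⊤ : Submodule R M))
    rwa [one_smul] at this
  | succ n ih =>
    intro x hx
    obtain ⟨w, hw, y, rfl⟩ := mem_W_succ.1 hx
    refine Submodule.add_mem _ ?_ ?_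
    · refine Submodule.smul_induction_on (ih hw) (fun r hr d _ => ?_) (fun p q hp hq => ?_)
      · rw [smul_smul]
        refine Submodule.smul_mem_smul ?_ trivial
        exact mem_W_succ.2 ⟨r, hr, 0, by simp⟩
      · rw [smul_add]; exact Submodule.add_mem _ hp hq
    · refine Submodule.smul_mem_smul ?_ trivial
      have := b_mem_W (M := R) a b (n + 1) 1
      rwa [smul_eq_mul, mul_one] at this

end main

/-- Main theorem, in terms of `W`. -/
theorem main {k : Type u} [Field k] [Infinite k] {R : Type u} [CommRing R] [IsLocalRing R]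
    [IsNoetherianRing R] [Algebra k R] {C : Type u} [AddCommGroup C]
    [Module R C] [Module k C] [IsScalarTower k R C] [Module.Finite R C]
    (hC : Module.annihilator R C = ⊥) {a b : R} (hR : RegularPair a b R) (hCab : RegularPair a b C)
    (hfin : Module.Finite k (R ⧸ W a b R 1))
    (h1 : Module.finrank k (Submodule.torsionBySet R (C ⧸ W a b C 1)
      (IsLocalRing.maximalIdeal R : Set R)) = 1)
    (h2 : 2 ≤ Module.finrank k (Submodule.torsionBySet R (R ⧸ W a b R 1)
      (IsLocalRing.maximalIdeal R : Set R))) :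
    ∃ J : Ideal R, cl k (J : Submodule R R) ≠ ⊤ ∧
      cl k (J • (⊤ : Submodule R C)) < cl k (J : Submodule R R) := by
  have hQ : ∀ q ∈ W a b R 1, ∀ x : C, q • x ∈ W a b C 1 := by
    intro q hq x
    obtain ⟨y, z, rfl⟩ := mem_W_one.1 hq
    refine mem_W_one.2 ⟨y • x, z • x, ?_⟩
    rw [add_smul, smul_assoc, smul_assoc]
  have hfinC : Module.Finite k (C ⧸ W a b C 1) := finite_quotient (W a b R 1) _ hQ
  have hle : cl k (W a b C 1) ≤ cl k (W a b R 1) := by
    refine length_le_dual (k := k) (W a b R 1) (X := C ⧸ W a b C 1) ?_ h1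
    intro q hq x
    obtain ⟨c, rfl⟩ := Submodule.Quotient.mk_surjective _ x
    rw [← Submodule.Quotient.mk_smul, Submodule.Quotient.mk_eq_zero]
    exact hQ q hq c
  obtain ⟨n, u, hu⟩ : ∃ (n : ℕ) (u : ℕ → R),
      Ideal.span {x | ∃ i < n + 1, x = u i} = IsLocalRing.maximalIdeal R := by
    obtain ⟨n, s, hs⟩ := Submodule.fg_iff_exists_fin_generating_family.1
      (IsNoetherian.noetherian (IsLocalRing.maximalIdeal R))
    refine ⟨n, fun i => if h : i < n then s ⟨i, h⟩ else 0, ?_⟩
    apply le_antisymm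
    · rw [Ideal.span_le]
      rintro _ ⟨i, -, rfl⟩
      by_cases h : i < n
      · simp only [h, dif_pos]
        rw [← hs]; exact Submodule.subset_span ⟨_, rfl⟩
      · simp only [h, dif_neg, not_false_eq_true]
        exact Submodule.zero_mem _
    · rw [← hs, Submodule.span_le]
      rintro _ ⟨i, rfl⟩
      refine Ideal.subset_span ⟨i.1, i.2.trans (Nat.lt_succ_self n), ?_⟩
      simp [i.2]
  set f := F a b u (n + 1) with hf
  let J : Ideal R := W a b R (n + 1) ⊔ LinearMap.range (LinearMap.lsmul R R f)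
  -- the formulas
  have e1 := cl_F (k := k) hR u (n + 1) (S a b R) (mem_S u hu)
  have e2 := cl_F (k := k) hCab u (n + 1) (S a b C) (mem_S u hu)
  rw [cl_W hR] at e1
  rw [cl_W hCab] at e2
  have e3 := cl_S (k := k) (M := R) a b
  have e4 := cl_S (k := k) (M := C) a b
  have hfs : Module.length k (Submodule.torsionBySet R (C ⧸ W a b C 1)
      (IsLocalRing.maximalIdeal R : Set R)) = 1 := by
    have : Module.Finite k (Submodule.torsionBySet R (C ⧸ W a b C 1)
      (IsLocalRing.maximalIdeal R : Set R)) := Module.finite_of_finrank_pos (by omega)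
    rw [Module.length_eq_finrank, h1]; rfl
  have hfs' : Module.length k (Submodule.torsionBySet R (R ⧸ W a b R 1)
      (IsLocalRing.maximalIdeal R : Set R)) = (Module.finrank k
      (Submodule.torsionBySet R (R ⧸ W a b R 1) (IsLocalRing.maximalIdeal R : Set R)) : ℕ) := by
    have : Module.Finite k (Submodule.torsionBySet R (R ⧸ W a b R 1)
      (IsLocalRing.maximalIdeal R : Set R)) := Module.finite_of_finrank_pos (by omega)
    rw [Module.length_eq_finrank]
  rw [hfs'] at e3
  rw [hfs] at e4
  have hJC : cl k (J • (⊤ : Submodule R C)) ≤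
      cl k (W a b C (n + 1) ⊔ LinearMap.range (LinearMap.lsmul R C f)) := by
    refine cl_mono (sup_le ?_ ?_)
    · exact (W_le_smul a b (n + 1)).trans (Submodule.smul_mono_left le_sup_left)
    · rintro _ ⟨c, rfl⟩
      refine Submodule.smul_mem_smul (show f ∈ J from ?_) trivial
      exact Submodule.mem_sup_right ⟨1, by simp⟩
  have fR : cl k (W a b R 1) ≠ ⊤ := by
    rw [cl, Module.length_eq_finrank]; exact ENat.natCast_ne_top _
  have fC : cl k (W a b C 1) ≠ ⊤ := by
    rw [cl, Module.length_eq_finrank]; exact ENat.natCast_ne_top _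
  change cl k (W a b C 1) ≤ cl k (W a b R 1) at hle
  have hJ : cl k (W a b R (n + 1) ⊔ LinearMap.range (LinearMap.lsmul R R f)) =
    cl k (J : Submodule R R) := rfl
  rw [hJ] at e1
  obtain ⟨eR, heR⟩ := ENat.ne_top_iff_exists.1 fR
  obtain ⟨eC, heC⟩ := ENat.ne_top_iff_exists.1 fC
  rw [← heR] at e1 e3 hle
  rw [← heC] at e2 e4 hle
  have gS : cl k (S a b R) ≠ ⊤ := by
    intro h; rw [h, add_top] at e3; exact ENat.natCast_ne_top _ e3
  have gS' : cl k (S a b C) ≠ ⊤ := by
    intro h; rw [h, add_top] at e4; exact ENat.natCast_ne_top _ e4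
  have gJ : cl k (J : Submodule R R) ≠ ⊤ := by
    intro h; rw [h, add_top, nsmul_eq_mul] at e1
    exact ENat.natCast_ne_top _ (by exact_mod_cast e1)
  have gJ' : cl k (W a b C (n + 1) ⊔ LinearMap.range (LinearMap.lsmul R C f)) ≠ ⊤ := by
    intro h; rw [h, add_top, nsmul_eq_mul] at e2
    exact ENat.natCast_ne_top _ (by exact_mod_cast e2)
  refine ⟨J, gJ, lt_of_le_of_lt hJC ?_⟩
  obtain ⟨x1, hx1⟩ := ENat.ne_top_iff_exists.1 gS
  obtain ⟨x2, hx2⟩ := ENat.ne_top_iff_exists.1 gS'
  obtain ⟨x3, hx3⟩ := ENat.ne_top_iff_exists.1 gJ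
  obtain ⟨x4, hx4⟩ := ENat.ne_top_iff_exists.1 gJ'
  rw [← hx1] at e1 e3
  rw [← hx2] at e2 e4
  rw [← hx3] at e1
  rw [← hx4] at e2
  rw [← hx3, ← hx4]
  rw [nsmul_eq_mul] at e1 e2
  have e1' : ((n + 1) * (n + 1 + 1) / 2) * eR = x1 + x3 := by exact_mod_cast e1
  have e2' : ((n + 1) * (n + 1 + 1) / 2) * eC = x2 + x4 := by exact_mod_cast e2
  have e3' : eR = Module.finrank k (Submodule.torsionBySet R (R ⧸ W a b R 1)
      (IsLocalRing.maximalIdeal R : Set R)) + x1 := by exact_mod_cast e3
  have e4' : eC = 1 + x2 := by exact_mod_cast e4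
  have hle' : eC ≤ eR := by exact_mod_cast hle
  obtain ⟨t, ht⟩ : ∃ t, (n + 1) * (n + 1 + 1) / 2 = t + 1 := by
    refine ⟨(n + 1) * (n + 1 + 1) / 2 - 1, ?_⟩
    have : 1 ≤ (n + 1) * (n + 1 + 1) / 2 := by
      rw [Nat.le_div_iff_mul_le two_pos]; nlinarith
    omega
  rw [ht, add_mul, one_mul] at e1' e2'
  have hm := Nat.mul_le_mul_left t hle'
  have : x4 < x3 := by omega
  exact_mod_cast this

end Pool.Agent.N397.NG
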